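import Mathlib

/-!
# Shifted Douglas-Rachford iterates for two balls converge

Let `A`, `B` be closed balls in a real inner product space `E` (for instance `E = ℝ³`), let `T` be the
Douglas-Rachford operator of the pair and let `v` be its minimal displacement vector.  For every `x`
the sequence `T^n x + n v` converges.

Proof.  If the balls meet, `v = 0` and `T` is firmly nonexpansive with a fixed point, and the orbit of
`x` stays in a finite-dimensional subspace through `x` and the two centres.  If they are disjoint, then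
`v` is the gap vector and `T y = y - v` for all `y` on a ray of the axis through the centres.  So the
distances of `T^n x + n v` to the points of the ray decrease, and the steps tend to `0`.  All
`T^n x + n v` lie in the plane through `x` and the axis, and in this plane the points with given
distances to two points of the axis are at most two; as the steps tend to `0` the sequence converges.
-/

set_option autoImplicit false

open Filter Topology Set Metric
open scoped RealInnerProductSpace

namespace Pool.Agent.Results.MP_ef197a_an.TwoBallsConverge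

variable {E : Type*} [NormedAddCommGroup E] [InnerProductSpace ℝ E]

/-- `p` is a nearest point to `x` in the set `C` -/
def IsNearest (C : Set E) (x p : E) : Prop := p ∈ C ∧ ∀ q ∈ C, ‖x - p‖ ≤ ‖x - q‖

/-- the reflector `2 P - Id` of the map `P` -/
def reflector (P : E → E) (x : E) : E := (2 : ℝ) • P x - x

/-- the operator `(Id + R_B R_A) / 2`, where `R_A = 2 P_A - Id` and `R_B = 2 P_B - Id` -/
noncomputable def douglasRachford (PA PB : E → E) (x : E) : E :=
  (1 / 2 : ℝ) • (x + reflector PB (reflector PA x))

/-- `v` is the element of least norm in the closure of the range of `Id - T` -/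
def IsMinimalDisplacement (T : E → E) (v : E) : Prop :=
  v ∈ closure (range fun x => x - T x) ∧ ∀ w ∈ closure (range fun x => x - T x), ‖v‖ ≤ ‖w‖

/-! ### projections onto convex sets -/

theorem IsNearest.inner_le {C : Set E} (hC : Convex ℝ C) {x p : E} (h : IsNearest C x p) :
    ∀ w ∈ C, ⟪x - p, w - p⟫ ≤ 0 := by
  have h1 : ‖x - p‖ = ⨅ w : C, ‖x - w‖ := by
    have : Nonempty C := ⟨⟨p, h.1⟩⟩
    apply le_antisymm
    · exact le_ciInf fun w => h.2 w w.2
    · exact ciInf_le ⟨0, by rintro _ ⟨w, rfl⟩; exact norm_nonneg _⟩ (⟨p, h.1⟩ : C)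
  exact (norm_eq_iInf_iff_real_inner_le_zero hC h.1).1 h1

theorem eq_of_inner_le {C : Set E} (hC : Convex ℝ C) {x p q : E} (h : IsNearest C x p) (hq : q ∈ C)
    (hq' : ∀ w ∈ C, ⟪x - q, w - q⟫ ≤ 0) : p = q := by
  have h1 := h.inner_le hC q hq
  have h2 := hq' p h.1
  have h3 : ⟪q - p, q - p⟫ = ⟪x - p, q - p⟫ + ⟪x - q, p - q⟫ := by
    have : q - p = (x - p) - (x - q) := by abel
    conv_lhs => rw [this]
    rw [inner_sub_left]
    have e1 : (x - p) - (x - q) = q - p := by abel
    rw [e1]
    have e2 : p - q = -(q - p) := by abel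
    rw [e2, inner_neg_right]
    ring
  have h4 : ⟪q - p, q - p⟫ ≤ 0 := by linarith
  have h5 : q - p = 0 := by
    rw [real_inner_self_eq_norm_sq] at h4
    have : ‖q - p‖ = 0 := by nlinarith [norm_nonneg (q - p)]
    exact norm_eq_zero.1 this
  exact (sub_eq_zero.1 h5).symm

theorem firm {C : Set E} (hC : Convex ℝ C) {x y p q : E} (h : IsNearest C x p)
    (h' : IsNearest C y q) : ‖p - q‖ ^ 2 ≤ ⟪p - q, x - y⟫ := by
  have h1 := h.inner_le hC q h'.1
  have h2 := h'.inner_le hC p h.1
  rw [← real_inner_self_eq_norm_sq]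
  have e : ⟪p - q, x - y⟫ - ⟪p - q, p - q⟫ = -(⟪x - p, q - p⟫ + ⟪y - q, p - q⟫) := by
    simp only [inner_sub_left, inner_sub_right]
    rw [real_inner_comm x p, real_inner_comm x q, real_inner_comm y p, real_inner_comm y q,
      real_inner_comm q p]
    ring
  linarith

theorem reflect_le {C : Set E} (hC : Convex ℝ C) {P : E → E} (hP : ∀ x, IsNearest C x (P x))
    (x y : E) : ‖reflector P x - reflector P y‖ ≤ ‖x - y‖ := by
  have h := firm hC (hP x) (hP y)
  have e : reflector P x - reflector P y = (2 : ℝ) • (P x - P y) - (x - y) := by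
    unfold reflector
    module
  rw [e]
  have h2 : ‖(2 : ℝ) • (P x - P y) - (x - y)‖ ^ 2 ≤ ‖x - y‖ ^ 2 := by
    rw [norm_sub_sq_real, norm_smul, inner_smul_left]
    simp only [Real.norm_eq_abs, conj_trivial]
    rw [abs_of_pos (by norm_num : (0 : ℝ) < 2)]
    nlinarith
  exact le_of_sq_le_sq h2 (norm_nonneg _)

theorem dr_firm {A B : Set E} (hA : Convex ℝ A) (hB : Convex ℝ B) {PA PB : E → E}
    (hPA : ∀ x, IsNearest A x (PA x)) (hPB : ∀ x, IsNearest B x (PB x)) (x y : E) :
    ‖douglasRachford PA PB x - douglasRachford PA PB y‖ ^ 2 +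
      ‖(x - douglasRachford PA PB x) - (y - douglasRachford PA PB y)‖ ^ 2 ≤ ‖x - y‖ ^ 2 := by
  set w := reflector PB (reflector PA x) - reflector PB (reflector PA y) with hw
  have h1 : ‖w‖ ≤ ‖x - y‖ := (reflect_le hB hPB _ _).trans (reflect_le hA hPA _ _)
  have e1 : douglasRachford PA PB x - douglasRachford PA PB y = (1 / 2 : ℝ) • ((x - y) + w) := by
    unfold douglasRachford
    rw [hw]
    module
  have e2 : (x - douglasRachford PA PB x) - (y - douglasRachford PA PB y)
      = (1 / 2 : ℝ) • ((x - y) - w) := by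
    unfold douglasRachford
    rw [hw]
    module
  have h2 := parallelogram_law_with_norm ℝ (x - y) w
  rw [e1, e2, norm_smul, norm_smul]
  have h3 : ‖(1 / 2 : ℝ)‖ = 1 / 2 := by norm_num
  rw [h3]
  have h4 : ‖w‖ * ‖w‖ ≤ ‖x - y‖ * ‖x - y‖ := mul_self_le_mul_self (norm_nonneg _) h1
  nlinarith

/-! ### projection onto a ball -/

theorem proj_ball {a : E} {r : ℝ} (hr : 0 ≤ r) {x p : E} (h : IsNearest (closedBall a r) x p) :
    ∃ c : ℝ, p = a + c • (x - a) := by
  by_cases hx : ‖x - a‖ ≤ r
  · refine ⟨1, ?_⟩
    have h1 := h.2 x (by rwa [mem_closedBall, dist_eq_norm])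
    rw [sub_self, norm_zero] at h1
    have h2 : x - p = 0 := norm_eq_zero.1 (le_antisymm h1 (norm_nonneg _))
    rw [one_smul, ← sub_eq_zero.1 h2]
    abel
  · push Not at hx
    have hx0 : 0 < ‖x - a‖ := lt_of_le_of_lt hr hx
    refine ⟨r / ‖x - a‖, ?_⟩
    refine eq_of_inner_le (convex_closedBall a r) h ?_ ?_
    · rw [mem_closedBall, dist_eq_norm, add_sub_cancel_left, norm_smul, Real.norm_eq_abs,
        abs_of_nonneg (by positivity), div_mul_cancel₀ _ hx0.ne']
    · intro w hw
      rw [mem_closedBall, dist_eq_norm] at hw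
      have e1 : x - (a + (r / ‖x - a‖) • (x - a)) = (1 - r / ‖x - a‖) • (x - a) := by module
      have e2 : w - (a + (r / ‖x - a‖) • (x - a)) = (w - a) - (r / ‖x - a‖) • (x - a) := by abel
      rw [e1, e2, inner_smul_left, conj_trivial, inner_sub_right, inner_smul_right,
        real_inner_self_eq_norm_sq]
      have h1 : 0 ≤ 1 - r / ‖x - a‖ := by
        rw [sub_nonneg, div_le_one hx0]
        exact hx.le
      have h2 : ⟪x - a, w - a⟫ ≤ ‖x - a‖ * r :=
        (real_inner_le_norm _ _).trans (mul_le_mul_of_nonneg_left hw hx0.le)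
      have h3 : r / ‖x - a‖ * ‖x - a‖ ^ 2 = ‖x - a‖ * r := by
        field_simp
      apply mul_nonpos_of_nonneg_of_nonpos h1
      linarith

/-- the projection of the point `a + t e`, `t ≥ r`, onto the ball with centre `a` -/
theorem proj_axis {a e : E} (he : ‖e‖ = 1) {r t : ℝ} (hr : 0 ≤ r) (ht : r ≤ t) {p : E}
    (h : IsNearest (closedBall a r) (a + t • e) p) : p = a + r • e := by
  refine eq_of_inner_le (convex_closedBall a r) h ?_ ?_
  · rw [mem_closedBall, dist_eq_norm, add_sub_cancel_left, norm_smul, he, Real.norm_eq_abs,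
      abs_of_nonneg hr, mul_one]
  · intro w hw
    rw [mem_closedBall, dist_eq_norm] at hw
    have e1 : a + t • e - (a + r • e) = (t - r) • e := by module
    have e2 : w - (a + r • e) = (w - a) - r • e := by abel
    rw [e1, e2, inner_smul_left, conj_trivial, inner_sub_right, inner_smul_right,
      real_inner_self_eq_norm_sq, he]
    have h2 : ⟪e, w - a⟫ ≤ 1 * r := by
      refine (real_inner_le_norm _ _).trans ?_
      rw [he]
      linarith
    apply mul_nonpos_of_nonneg_of_nonpos (by linarith)
    linarith

/-! ### invariance of subspaces through the centres -/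

theorem dr_mem {a b : E} {r s : ℝ} (hr : 0 ≤ r) (hs : 0 ≤ s) {PA PB : E → E}
    (hPA : ∀ x, IsNearest (closedBall a r) x (PA x))
    (hPB : ∀ x, IsNearest (closedBall b s) x (PB x)) (V : Submodule ℝ E) (hV : b - a ∈ V)
    {x : E} (hx : x - a ∈ V) : douglasRachford PA PB x - a ∈ V := by
  obtain ⟨c, hc⟩ := proj_ball hr (hPA x)
  obtain ⟨d, hd⟩ := proj_ball hs (hPB (reflector PA x))
  have h1 : reflector PA x - a = (2 * c - 1) • (x - a) := by
    unfold reflector
    rw [hc]
    module
  have h2 : reflector PA x - a ∈ V := by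
    rw [h1]
    exact V.smul_mem _ hx
  have h3 : reflector PB (reflector PA x) - a
      = (2 * d - 1) • (reflector PA x - a) + (2 - 2 * d) • (b - a) := by
    have : reflector PB (reflector PA x) = (2 : ℝ) • PB (reflector PA x) - reflector PA x := rfl
    rw [this, hd]
    module
  have h4 : reflector PB (reflector PA x) - a ∈ V := by
    rw [h3]
    exact V.add_mem (V.smul_mem _ h2) (V.smul_mem _ hV)
  have h5 : douglasRachford PA PB x - a
      = (1 / 2 : ℝ) • ((x - a) + (reflector PB (reflector PA x) - a)) := by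
    unfold douglasRachford
    module
  rw [h5]
  exact V.smul_mem _ (V.add_mem hx h4)

theorem iter_mem {a b : E} {r s : ℝ} (hr : 0 ≤ r) (hs : 0 ≤ s) {PA PB : E → E}
    (hPA : ∀ x, IsNearest (closedBall a r) x (PA x))
    (hPB : ∀ x, IsNearest (closedBall b s) x (PB x)) (V : Submodule ℝ E) (hV : b - a ∈ V)
    {x : E} (hx : x - a ∈ V) (n : ℕ) : (douglasRachford PA PB)^[n] x - a ∈ V := by
  induction n with
  | zero => simpa using hx
  | succ n ih =>
    rw [Function.iterate_succ_apply']
    exact dr_mem hr hs hPA hPB V hV ih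

/-! ### sequences -/

/-- A real sequence with steps tending to zero whose absolute values converge is convergent. -/
theorem tendsto_of_abs {β : ℕ → ℝ} {ρ : ℝ} (h1 : Tendsto (fun n => |β n|) atTop (𝓝 ρ))
    (h2 : Tendsto (fun n => β (n + 1) - β n) atTop (𝓝 0)) : ∃ l, Tendsto β atTop (𝓝 l) := by
  have hρ : 0 ≤ ρ := ge_of_tendsto' h1 fun n => abs_nonneg _
  rcases hρ.eq_or_lt with h0 | h0
  · exact ⟨0, (tendsto_zero_iff_abs_tendsto_zero β).2 (h0 ▸ h1)⟩
  · have e1 : ∀ᶠ n in atTop, ρ / 2 < |β n| := h1.eventually (lt_mem_nhds (by linarith))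
    have e2 : ∀ᶠ n in atTop, |β (n + 1) - β n| < ρ / 2 := by
      have := (tendsto_zero_iff_abs_tendsto_zero _).1 h2
      exact this.eventually (gt_mem_nhds (by linarith))
    obtain ⟨N, hN⟩ := eventually_atTop.1 (e1.and e2)
    rcases lt_or_ge (β N) 0 with hs | hs
    · have key : ∀ n, N ≤ n → β n < 0 := by
        intro n hn
        induction n, hn using Nat.le_induction with
        | base => exact hs
        | succ n hn ih =>
          have a1 := (hN n hn).1
          have a2 := abs_lt.1 (hN n hn).2
          rw [abs_of_neg ih] at a1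
          linarith
      refine ⟨-ρ, ?_⟩
      refine (h1.neg).congr' ?_
      filter_upwards [eventually_ge_atTop N] with n hn
      rw [abs_of_neg (key n hn), neg_neg]
    · have hs' : 0 < β N := by
        rcases hs.eq_or_lt with h | h
        · have := (hN N le_rfl).1
          rw [← h, abs_zero] at this
          linarith
        · exact h
      have key : ∀ n, N ≤ n → 0 < β n := by
        intro n hn
        induction n, hn using Nat.le_induction with
        | base => exact hs'
        | succ n hn ih =>
          have a1 := (hN n hn).1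
          have a2 := abs_lt.1 (hN n hn).2
          rw [abs_of_pos ih] at a1
          linarith
      refine ⟨ρ, ?_⟩
      refine h1.congr' ?_
      filter_upwards [eventually_ge_atTop N] with n hn
      rw [abs_of_pos (key n hn)]

/-- A sequence in a plane through the line `a + ℝ e`, with steps tending to zero, whose distances to
two points of the line converge, is convergent. -/
theorem planar {a e f : E} (he : ‖e‖ = 1) (hef : ⟪e, f⟫ = 0) {y : ℕ → E}
    (hy : ∀ n, ∃ α β : ℝ, y n = a + α • e + β • f) {t₁ t₂ : ℝ} (ht : t₁ ≠ t₂)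
    (h1 : ∃ d, Tendsto (fun n => ‖y n - (a + t₁ • e)‖ ^ 2) atTop (𝓝 d))
    (h2 : ∃ d, Tendsto (fun n => ‖y n - (a + t₂ • e)‖ ^ 2) atTop (𝓝 d))
    (h3 : Tendsto (fun n => ‖y (n + 1) - y n‖) atTop (𝓝 0)) : ∃ l, Tendsto y atTop (𝓝 l) := by
  obtain ⟨d₁, h1⟩ := h1
  obtain ⟨d₂, h2⟩ := h2
  choose α β hαβ using hy
  have hee : ⟪e, e⟫ = 1 := by rw [real_inner_self_eq_norm_sq, he]; norm_num
  have hnorm : ∀ u w : ℝ, ‖u • e + w • f‖ ^ 2 = u ^ 2 + w ^ 2 * ‖f‖ ^ 2 := by
    intro u w
    rw [norm_add_sq_real, norm_smul, norm_smul, inner_smul_left, inner_smul_right, hef, he]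
    simp only [Real.norm_eq_abs, conj_trivial]
    rw [mul_one, sq_abs, mul_pow, sq_abs]
    ring
  have hd : ∀ (t : ℝ) (n : ℕ), ‖y n - (a + t • e)‖ ^ 2 = (α n - t) ^ 2 + β n ^ 2 * ‖f‖ ^ 2 := by
    intro t n
    rw [← hnorm, hαβ n]
    congr 2
    module
  have hα : ∃ l, Tendsto α atTop (𝓝 l) := by
    have h4 : Tendsto (fun n => (‖y n - (a + t₁ • e)‖ ^ 2 - ‖y n - (a + t₂ • e)‖ ^ 2
        - (t₁ ^ 2 - t₂ ^ 2)) / (2 * (t₂ - t₁))) atTop
        (𝓝 ((d₁ - d₂ - (t₁ ^ 2 - t₂ ^ 2)) / (2 * (t₂ - t₁)))) :=
      (((h1.sub h2).sub tendsto_const_nhds).div_const _)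
    refine ⟨_, h4.congr fun n => ?_⟩
    rw [hd, hd]
    have : t₂ - t₁ ≠ 0 := sub_ne_zero.2 ht.symm
    field_simp
    ring
  obtain ⟨l, hα⟩ := hα
  by_cases hf : f = 0
  · refine ⟨a + l • e, ?_⟩
    have : y = fun n => a + α n • e := by
      funext n
      rw [hαβ n, hf, smul_zero, add_zero]
    rw [this]
    exact tendsto_const_nhds.add (hα.smul_const e)
  · have hf0 : 0 < ‖f‖ := norm_pos_iff.2 hf
    have hβ2 : Tendsto (fun n => |β n|) atTop (𝓝 (√((d₁ - (l - t₁) ^ 2) / ‖f‖ ^ 2))) := by
      have h4 : Tendsto (fun n => √((‖y n - (a + t₁ • e)‖ ^ 2 - (α n - t₁) ^ 2) / ‖f‖ ^ 2)) atTop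
          (𝓝 (√((d₁ - (l - t₁) ^ 2) / ‖f‖ ^ 2))) := by
        refine (Real.continuous_sqrt.tendsto _).comp ?_
        exact (h1.sub ((hα.sub_const t₁).pow 2)).div_const _
      refine h4.congr fun n => ?_
      rw [hd]
      have : ((α n - t₁) ^ 2 + β n ^ 2 * ‖f‖ ^ 2 - (α n - t₁) ^ 2) / ‖f‖ ^ 2 = β n ^ 2 := by
        field_simp
        ring
      rw [this, Real.sqrt_sq_eq_abs]
    have hstep : Tendsto (fun n => β (n + 1) - β n) atTop (𝓝 0) := by
      rw [tendsto_zero_iff_abs_tendsto_zero]
      have h4 : Tendsto (fun n => ‖y (n + 1) - y n‖ / ‖f‖) atTop (𝓝 0) := by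
        simpa using h3.div_const ‖f‖
      refine squeeze_zero (fun n => abs_nonneg _) (fun n => ?_) h4
      change |β (n + 1) - β n| ≤ ‖y (n + 1) - y n‖ / ‖f‖
      rw [le_div_iff₀ hf0]
      have h5 : ‖y (n + 1) - y n‖ ^ 2
          = (α (n + 1) - α n) ^ 2 + (β (n + 1) - β n) ^ 2 * ‖f‖ ^ 2 := by
        rw [← hnorm, hαβ n, hαβ (n + 1)]
        congr 2
        module
      apply le_of_sq_le_sq _ (norm_nonneg _)
      rw [h5, mul_pow, sq_abs]
      nlinarith [sq_nonneg (α (n + 1) - α n)]
    obtain ⟨m, hβ⟩ := tendsto_of_abs hβ2 hstep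
    refine ⟨a + l • e + m • f, ?_⟩
    have : y = fun n => a + α n • e + β n • f := by
      funext n
      exact hαβ n
    rw [this]
    exact (tendsto_const_nhds.add (hα.smul_const e)).add (hβ.smul_const f)

/-! ### firmly nonexpansive operators -/

section FirmOp

variable {T : E → E}
  (hT : ∀ x y, ‖T x - T y‖ ^ 2 + ‖(x - T x) - (y - T y)‖ ^ 2 ≤ ‖x - y‖ ^ 2)

include hT

theorem orbit_dist (x z : E) : ∃ d, Tendsto (fun n : ℕ => ‖T^[n] x - T^[n] z‖ ^ 2) atTop (𝓝 d) := by
  refine ⟨_, tendsto_atTop_ciInf ?_ ⟨0, ?_⟩⟩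
  · refine antitone_nat_of_succ_le fun n => ?_
    rw [Function.iterate_succ_apply', Function.iterate_succ_apply']
    nlinarith [hT (T^[n] x) (T^[n] z), sq_nonneg ‖(T^[n] x - T (T^[n] x)) - (T^[n] z - T (T^[n] z))‖]
  · rintro _ ⟨n, rfl⟩
    positivity

theorem orbit_step (x z : E) : Tendsto (fun n : ℕ =>
    ‖(T^[n] x - T^[n + 1] x) - (T^[n] z - T^[n + 1] z)‖) atTop (𝓝 0) := by
  obtain ⟨d, hd⟩ := orbit_dist hT x z
  have h1 : Tendsto (fun n : ℕ => ‖T^[n] x - T^[n] z‖ ^ 2 - ‖T^[n + 1] x - T^[n + 1] z‖ ^ 2) atTop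
      (𝓝 0) := by
    have := hd.sub (hd.comp (tendsto_add_atTop_nat 1))
    simpa using this
  have h2 : Tendsto (fun n : ℕ => ‖(T^[n] x - T^[n + 1] x) - (T^[n] z - T^[n + 1] z)‖ ^ 2) atTop
      (𝓝 0) := by
    refine squeeze_zero (fun n => sq_nonneg _) (fun n => ?_) h1
    have := hT (T^[n] x) (T^[n] z)
    rw [← Function.iterate_succ_apply' T n x, ← Function.iterate_succ_apply' T n z] at this
    linarith
  have h3 := (Real.continuous_sqrt.tendsto 0).comp h2
  rw [Real.sqrt_zero] at h3
  refine h3.congr fun n => ?_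
  simp only [Function.comp]
  exact Real.sqrt_sq (norm_nonneg _)

theorem continuous_of_firm : Continuous T := by
  have : LipschitzWith 1 T := by
    refine LipschitzWith.of_dist_le_mul fun x y => ?_
    rw [NNReal.coe_one, one_mul, dist_eq_norm, dist_eq_norm]
    refine le_of_sq_le_sq ?_ (norm_nonneg _)
    nlinarith [hT x y, sq_nonneg ‖(x - T x) - (y - T y)‖]
  exact this.continuous

/-- The orbit converges if there is a fixed point and the orbit lies in a translate of a
finite-dimensional subspace. -/
theorem orbit_converges {c : E} (hc : T c = c) {a x : E} (V : Submodule ℝ E)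
    [FiniteDimensional ℝ V] (hV : ∀ n : ℕ, T^[n] x - a ∈ V) :
    ∃ l, Tendsto (fun n : ℕ => T^[n] x) atTop (𝓝 l) := by
  have hc' : ∀ n : ℕ, T^[n] c = c := fun n => Function.iterate_fixed hc n
  -- bounded
  have hb : ∀ n : ℕ, ‖T^[n] x - c‖ ≤ ‖x - c‖ := by
    intro n
    induction n with
    | zero => simp
    | succ n ih =>
      refine le_trans ?_ ih
      refine le_of_sq_le_sq ?_ (norm_nonneg _)
      have := hT (T^[n] x) c
      rw [hc] at this
      rw [Function.iterate_succ_apply']
      nlinarith [sq_nonneg ‖T^[n] x - T (T^[n] x) - (c - c)‖]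
  let u : ℕ → V := fun n => ⟨T^[n] x - a, hV n⟩
  have hu : ∀ n, u n ∈ Metric.closedBall (0 : V) (‖x - c‖ + ‖c - a‖) := by
    intro n
    rw [mem_closedBall, dist_zero_right]
    change ‖T^[n] x - a‖ ≤ _
    calc ‖T^[n] x - a‖ = ‖(T^[n] x - c) + (c - a)‖ := by congr 1; abel
      _ ≤ ‖T^[n] x - c‖ + ‖c - a‖ := norm_add_le _ _
      _ ≤ _ := by linarith [hb n]
  have : ProperSpace V := FiniteDimensional.proper ℝ V
  obtain ⟨w, -, φ, hφ, hw⟩ := (isCompact_closedBall (0 : V) (‖x - c‖ + ‖c - a‖)).tendsto_subseq hu
  set z : E := a + w with hz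
  have hz1 : Tendsto (fun n => T^[φ n] x) atTop (𝓝 z) := by
    have h1 : Tendsto (fun n => ((u (φ n) : V) : E)) atTop (𝓝 (w : E)) :=
      (continuous_subtype_val.tendsto w).comp hw
    have h2 := h1.const_add a
    refine h2.congr fun n => ?_
    change a + (T^[φ n] x - a) = _
    abel
  have hfix : T z = z := by
    have h1 : Tendsto (fun n => T (T^[φ n] x)) atTop (𝓝 (T z)) :=
      ((continuous_of_firm hT).tendsto z).comp hz1
    have h2 : Tendsto (fun n => T^[φ n] x - T^[φ n + 1] x) atTop (𝓝 0) := by
      rw [tendsto_zero_iff_norm_tendsto_zero]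
      have h3 := (orbit_step hT x c).comp hφ.tendsto_atTop
      refine h3.congr fun n => ?_
      simp only [Function.comp, hc', sub_self, sub_zero]
    have h3 : Tendsto (fun n => T (T^[φ n] x)) atTop (𝓝 z) := by
      have := hz1.sub h2
      rw [sub_zero] at this
      refine this.congr fun n => ?_
      rw [Function.iterate_succ_apply']
      abel
    exact tendsto_nhds_unique h1 h3
  refine ⟨z, ?_⟩
  obtain ⟨d, hd⟩ := orbit_dist hT x z
  have hz' : ∀ n : ℕ, T^[n] z = z := fun n => Function.iterate_fixed hfix n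
  simp only [hz'] at hd
  have hd0 : d = 0 := by
    have h1 : Tendsto (fun n => ‖T^[φ n] x - z‖ ^ 2) atTop (𝓝 d) := hd.comp hφ.tendsto_atTop
    have h2 : Tendsto (fun n => ‖T^[φ n] x - z‖ ^ 2) atTop (𝓝 0) := by
      have := ((hz1.sub_const z).norm).pow 2
      simpa using this
    exact tendsto_nhds_unique h1 h2
  rw [hd0] at hd
  have h3 := (Real.continuous_sqrt.tendsto 0).comp hd
  rw [Real.sqrt_zero] at h3
  rw [tendsto_iff_norm_sub_tendsto_zero]
  refine h3.congr fun n => ?_
  simp only [Function.comp]
  exact Real.sqrt_sq (norm_nonneg _)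

end FirmOp

/-! ### the main theorem -/

/-- Let `A`, `B` be two closed balls in a real inner product space, `T` their Douglas-Rachford
operator and `v` its minimal displacement vector. Then `T^n x + n v` converges for every `x`. -/
theorem result (E : Type*) [NormedAddCommGroup E] [InnerProductSpace ℝ E] (a b : E) (r s : ℝ)
    (hr : 0 ≤ r) (hs : 0 ≤ s) (PA PB : E → E)
    (hPA : ∀ x, IsNearest (closedBall a r) x (PA x))
    (hPB : ∀ x, IsNearest (closedBall b s) x (PB x)) (v : E)
    (hv : IsMinimalDisplacement (douglasRachford PA PB) v) (x : E) :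
    ∃ l, Tendsto (fun n : ℕ => (douglasRachford PA PB)^[n] x + (n : ℝ) • v) atTop (𝓝 l) := by
  set T := douglasRachford PA PB with hTdef
  have hT := dr_firm (convex_closedBall a r) (convex_closedBall b s) hPA hPB
  by_cases hAB : ∃ c, c ∈ closedBall a r ∧ c ∈ closedBall b s
  · -- the balls meet
    obtain ⟨c, hca, hcb⟩ := hAB
    have h1 : PA c = c := by
      have := (hPA c).2 c hca
      rw [sub_self, norm_zero] at this
      exact (sub_eq_zero.1 (norm_eq_zero.1 (le_antisymm this (norm_nonneg _)))).symm
    have h2 : PB c = c := by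
      have := (hPB c).2 c hcb
      rw [sub_self, norm_zero] at this
      exact (sub_eq_zero.1 (norm_eq_zero.1 (le_antisymm this (norm_nonneg _)))).symm
    have h3 : T c = c := by
      have e1 : reflector PA c = c := by unfold reflector; rw [h1]; module
      have e2 : reflector PB c = c := by unfold reflector; rw [h2]; module
      rw [hTdef]
      unfold douglasRachford
      rw [e1, e2]
      module
    have hv0 : v = 0 := by
      have h4 := hv.2 0 (subset_closure ⟨c, by simp only; rw [h3, sub_self]⟩)
      rw [norm_zero] at h4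
      exact norm_eq_zero.1 (le_antisymm h4 (norm_nonneg _))
    let V : Submodule ℝ E := Submodule.span ℝ {b - a, x - a}
    have : FiniteDimensional ℝ V := FiniteDimensional.span_of_finite ℝ (by simp)
    obtain ⟨l, hl⟩ := orbit_converges (T := T) hT h3 (a := a) (x := x) V
      (iter_mem hr hs hPA hPB V (Submodule.subset_span (by simp))
        (Submodule.subset_span (by simp)))
    refine ⟨l, ?_⟩
    simpa [hv0] using hl
  · -- disjoint balls
    push Not at hAB
    set D := ‖b - a‖ with hD
    have hD0 : r + s < D := by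
      by_contra hcon
      push Not at hcon
      by_cases hrD : D ≤ r
      · apply hAB b
        · rw [mem_closedBall, dist_eq_norm]
          exact hrD
        · exact mem_closedBall_self hs
      · push Not at hrD
        have hDpos : 0 < D := lt_of_le_of_lt hr hrD
        apply hAB (a + (r / D) • (b - a))
        · rw [mem_closedBall, dist_eq_norm, add_sub_cancel_left, norm_smul, Real.norm_eq_abs,
            abs_of_nonneg (by positivity), ← hD, div_mul_cancel₀ _ hDpos.ne']
        · rw [mem_closedBall, dist_eq_norm]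
          have : a + (r / D) • (b - a) - b = (r / D - 1) • (b - a) := by module
          rw [this, norm_smul, Real.norm_eq_abs, ← hD, abs_sub_comm, abs_of_nonneg, sub_mul,
            div_mul_cancel₀ _ hDpos.ne']
          · linarith
          · rw [sub_nonneg, div_le_one hDpos]
            exact hrD.le
    have hDpos : 0 < D := by linarith
    set e : E := D⁻¹ • (b - a) with he
    have he1 : ‖e‖ = 1 := by
      rw [he, norm_smul, norm_inv, Real.norm_eq_abs, abs_of_pos hDpos, ← hD,
        inv_mul_cancel₀ hDpos.ne']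
    have hb : b = a + D • e := by
      rw [he, smul_smul, mul_inv_cancel₀ hDpos.ne', one_smul]
      abel
    have hee : ⟪e, e⟫ = 1 := by rw [real_inner_self_eq_norm_sq, he1]; norm_num
    set δ := D - r - s with hδ
    have hδ0 : 0 < δ := by rw [hδ]; linarith
    -- the action on the ray
    have hray : ∀ t : ℝ, r ≤ t → T (a + t • e) = a + (t + δ) • e := by
      intro t ht
      have h1 : PA (a + t • e) = a + r • e := proj_axis he1 hr ht (hPA _)
      have h2 : reflector PA (a + t • e) = a + (2 * r - t) • e := by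
        unfold reflector
        rw [h1]
        module
      have h3 : PB (a + (2 * r - t) • e) = b - s • e := by
        have h4 := hPB (a + (2 * r - t) • e)
        have h5 : a + (2 * r - t) • e = b + (D + t - 2 * r) • (-e) := by
          rw [hb]
          module
        rw [h5] at h4 ⊢
        have h6 := proj_axis (e := -e) (by rw [norm_neg, he1]) hs (by linarith) h4
        rw [h6]
        module
      rw [hTdef]
      unfold douglasRachford
      have h7 : reflector PB (reflector PA (a + t • e))
          = (2 : ℝ) • (b - s • e) - (a + (2 * r - t) • e) := by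
        rw [h2]
        unfold reflector
        rw [h3]
      rw [h7, hb, hδ]
      module
    -- the minimal displacement vector
    have hve : v = (-δ) • e := by
      have h1 : (-δ) • e ∈ closure (range fun x => x - T x) := by
        apply subset_closure
        refine ⟨a + r • e, ?_⟩
        simp only
        rw [hray r le_rfl]
        module
      have h2 : ‖v‖ ≤ δ := by
        have := hv.2 _ h1
        rwa [norm_smul, he1, Real.norm_eq_abs, abs_neg, abs_of_pos hδ0, mul_one] at this
      have h3 : ∀ w ∈ closure (range fun x => x - T x), δ ≤ ⟪w, -e⟫ := by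
        have hcl : IsClosed {w : E | δ ≤ ⟪w, -e⟫} :=
          isClosed_le continuous_const (continuous_id.inner continuous_const)
        refine fun w hw => closure_minimal ?_ hcl hw
        rintro _ ⟨y, rfl⟩
        change δ ≤ ⟪y - T y, -e⟫
        have h4 : y - T y = PA y - PB (reflector PA y) := by
          rw [hTdef]
          unfold douglasRachford
          have : reflector PB (reflector PA y)
              = (2 : ℝ) • PB (reflector PA y) - ((2 : ℝ) • PA y - y) := rfl
          rw [this]
          module
        have h5 := (hPA y).1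
        have h6 := (hPB (reflector PA y)).1
        rw [mem_closedBall, dist_eq_norm] at h5 h6
        have h7 : y - T y = (PA y - a) - (PB (reflector PA y) - b) - D • e := by
          have hDe : D • e = b - a := by
            rw [he, smul_smul, mul_inv_cancel₀ hDpos.ne', one_smul]
          rw [h4, hDe]
          abel
        rw [h7, inner_neg_right, inner_sub_left, inner_sub_left, inner_smul_left, conj_trivial,
          hee]
        have h8 : ⟪PA y - a, e⟫ ≤ r := by
          refine (real_inner_le_norm _ _).trans ?_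
          rw [he1, mul_one]
          exact h5
        have h9 : -s ≤ ⟪PB (reflector PA y) - b, e⟫ := by
          have := (abs_le.1 (abs_real_inner_le_norm (PB (reflector PA y) - b) e)).1
          rw [he1, mul_one] at this
          linarith
        rw [hδ]
        linarith
      have h4 := h3 v hv.1
      rw [inner_neg_right] at h4
      have h5 : ‖v - (-δ) • e‖ ^ 2 ≤ 0 := by
        rw [norm_sub_sq_real, inner_smul_right, norm_smul, he1, Real.norm_eq_abs, abs_neg,
          abs_of_pos hδ0]
        nlinarith [norm_nonneg v]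
      have h6 : ‖v - (-δ) • e‖ = 0 := by nlinarith [norm_nonneg (v - (-δ) • e)]
      exact sub_eq_zero.1 (norm_eq_zero.1 h6)
    have hiter : ∀ (t : ℝ), r ≤ t → ∀ n : ℕ, T^[n] (a + t • e) = a + (t + n * δ) • e := by
      intro t ht n
      induction n with
      | zero => simp
      | succ n ih =>
        rw [Function.iterate_succ_apply', ih, hray]
        · congr 2
          push_cast
          ring
        · have : 0 ≤ (n : ℝ) * δ := by positivity
          linarith
    -- the plane
    set f : E := (x - a) - ⟪x - a, e⟫ • e with hf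
    have hef : ⟪e, f⟫ = 0 := by
      rw [hf, inner_sub_right, inner_smul_right, hee, mul_one, real_inner_comm, sub_self]
    let V : Submodule ℝ E := Submodule.span ℝ {e, f}
    have heV : e ∈ V := Submodule.subset_span (by simp)
    have hfV : f ∈ V := Submodule.subset_span (by simp)
    have hbV : b - a ∈ V := by
      have : b - a = D • e := by rw [hb]; abel
      rw [this]
      exact V.smul_mem _ heV
    have hxV : x - a ∈ V := by
      have : x - a = f + ⟪x - a, e⟫ • e := by rw [hf]; abel
      rw [this]
      exact V.add_mem hfV (V.smul_mem _ heV)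
    have hmem := iter_mem hr hs hPA hPB V hbV hxV
    have hstep := orbit_step (T := T) hT x (a + r • e)
    refine planar (a := a) (e := e) (f := f) (t₁ := r) (t₂ := r + 1) he1 hef ?_ (by linarith)
      ?_ ?_ ?_
    · intro n
      obtain ⟨α, β, hαβ⟩ := Submodule.mem_span_pair.1 (hmem n)
      refine ⟨α - n * δ, β, ?_⟩
      have : T^[n] x = a + (α • e + β • f) := by rw [hαβ]; abel
      rw [this, hve]
      module
    · obtain ⟨d, hd⟩ := orbit_dist (T := T) hT x (a + r • e)
      refine ⟨d, hd.congr fun n => ?_⟩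
      rw [hiter r le_rfl n, hve]
      congr 2
      module
    · obtain ⟨d, hd⟩ := orbit_dist (T := T) hT x (a + (r + 1) • e)
      refine ⟨d, hd.congr fun n => ?_⟩
      rw [hiter (r + 1) (by linarith) n, hve]
      congr 2
      module
    · refine hstep.congr fun n => ?_
      rw [hiter r le_rfl n, hiter r le_rfl (n + 1), hve, ← norm_neg]
      congr 1
      push_cast
      module

end Pool.Agent.Results.MP_ef197a_an.TwoBallsConverge
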